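import Pool.Agent.H93.PF.TargetsB

/-!
# Row MSG of the board pfs (helper93, MP_32ebde_an)

The messages.
-/

set_option autoImplicit false

open MeasureTheory Filter Topology Finset Pool.Agent.H93.PF

namespace Pool.Agent.H13.PF

theorem pf_MSG (hTAU : T_TAU) : T_MSG := by
  intro L K h' Q S hL hh' hQ hS
  have hQpos : ∀ g, (g = L ∨ g = L + 1) → 0 < Q g := by
    intro g hg
    have h1 := (Real.exp_pos (h' * g)).trans_le (hQ g hg)
    exact_mod_cast h1
  have key : ∀ r, L ^ 2 ≤ r → ∃ f : (Fin r → Fin K) → ℕ → ℕ,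
      (∀ w i, i < nt L r → f w i < Q (tau L r (i + 1) - tau L r i)) ∧
      ∀ w ∈ S r, ∀ w' ∈ S r, (∀ i < nt L r, f w i = f w' i) → w = w' := by
    intro r hr
    obtain ⟨-, ht0, htr, hstep, -⟩ := hTAU L r hL hr
    have hlen : ∀ i, (tau L r (i + 1) - tau L r i = L ∨ tau L r (i + 1) - tau L r i = L + 1) := by
      intro i
      rcases hstep i with h | h
      · left
        omega
      · right
        omega
    have hsum : ∀ n, ∑ i ∈ range n, (tau L r (i + 1) - tau L r i) = tau L r n := by
      intro n
      induction n with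
      | zero => rw [Finset.sum_range_zero, ht0]
      | succ n ih =>
        rw [Finset.sum_range_succ, ih]
        rcases hstep n with h | h <;> omega
    have hprod : ((S r).ncard : ℝ) ≤
        ((∏ i ∈ range (nt L r), Q (tau L r (i + 1) - tau L r i) : ℕ) : ℝ) := by
      refine (hS r).trans ?_
      have e1 : Real.exp (h' * r) = ∏ i ∈ range (nt L r),
          Real.exp (h' * ((tau L r (i + 1) - tau L r i : ℕ) : ℝ)) := by
        rw [← Real.exp_sum, ← Finset.mul_sum, ← Nat.cast_sum, hsum, htr]
      rw [e1, Nat.cast_prod]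
      exact Finset.prod_le_prod (fun i _ => (Real.exp_pos _).le) (fun i _ => hQ _ (hlen i))
    have hprod' : (S r).ncard ≤ ∏ i : Fin (nt L r), Q (tau L r (i + 1) - tau L r i) := by
      rw [← Fin.prod_univ_eq_prod_range (fun i => Q (tau L r (i + 1) - tau L r i))] at hprod
      exact_mod_cast hprod
    classical
    have hfin : Fintype (S r) := Fintype.ofFinite _
    have hcard : Fintype.card (S r) ≤
        Fintype.card ((i : Fin (nt L r)) → Fin (Q (tau L r (i + 1) - tau L r i))) := by
      rw [Fintype.card_pi]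
      simp only [Fintype.card_fin]
      rw [← Nat.card_eq_fintype_card]
      exact hprod'
    obtain ⟨φ⟩ := Function.Embedding.nonempty_of_card_le hcard
    refine ⟨fun w i => if h : w ∈ S r ∧ i < nt L r then (φ ⟨w, h.1⟩ ⟨i, h.2⟩ : ℕ) else 0, ?_, ?_⟩
    · intro w i hi
      by_cases hw : w ∈ S r
      · simp only [hw, hi, and_self, dite_true]
        exact (φ ⟨w, hw⟩ ⟨i, hi⟩).2
      · simp only [hw, false_and, dite_false]
        exact hQpos _ (hlen i)
    · intro w hw w' hw' heq
      have h1 : φ ⟨w, hw⟩ = φ ⟨w', hw'⟩ := by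
        funext i
        have h2 := heq i.1 i.2
        simp only [hw, hw', i.2, and_self, dite_true] at h2
        exact Fin.ext h2
      exact congrArg Subtype.val (φ.injective h1)
  choose! msg hm1 hm2 using key
  exact ⟨msg, hm1, hm2⟩

end Pool.Agent.H13.PF
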